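import Mathlib
import Pool.Agent.H.MP_e74e95_nt.A

set_option autoImplicit false

namespace Pool.Agent.Results.MP_e74e95_nt.Fail

open Finset

/-- the number of partitions of `n` into exactly `i` parts, all taken from `A` -/
def c (A : Finset ℕ) (i n : ℕ) : ℕ :=
  #{p : n.Partition | (∀ a ∈ p.parts, a ∈ A) ∧ p.parts.card = i}

def S (A : Finset ℕ) (k n : ℕ) : ℤ := ∑ i ∈ range (n + 1), (-1) ^ i * (i : ℤ) ^ k * c A i n

theorem result : ∃ m k : ℕ, 2 ≤ m ∧ m - 1 ≤ k ∧ ∀ N : ℕ, ∃ n : ℕ, N ≤ n ∧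
    (-1) ^ n * S ((Icc 1 m).image Nat.factorial) k n < 0 := by
  refine ⟨3, 2, by norm_num, by norm_num, fun N => ?_⟩
  rw [show (Icc 1 3).image Nat.factorial = {1, 2, 6} by decide]
  exact Pool.Agent.H.MP_e74e95_nt.main N

end Pool.Agent.Results.MP_e74e95_nt.Fail
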